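import Pool.Agent.H947R2.TP.Stubs

/-!
# Differences of the centres
-/

open MeasureTheory Filter Topology Set
open scoped ENNReal

namespace H947TP

namespace E1aux

variable {D n : ℕ} {b : Fin D → Fin n} {f : (Fin n → Bool) → (Fin n → Bool)}

theorem int_ge {m : ℤ} (h : m ≠ 0) : (1 : ℝ) ≤ |(m : ℝ)| := by
  have h1 : (1 : ℤ) ≤ |m| := Int.one_le_abs h
  calc (1 : ℝ) = ((1 : ℤ) : ℝ) := by simp
    _ ≤ ((|m| : ℤ) : ℝ) := by exact_mod_cast h1
    _ = |(m : ℝ)| := Int.cast_abs

theorem half_ge (m : ℤ) : (1 / 2 : ℝ) ≤ |(m : ℝ) + 1 / 2| := by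
  rcases le_or_gt 0 m with h | h
  · have h1 : (0 : ℝ) ≤ m := by exact_mod_cast h
    rw [abs_of_nonneg (by linarith)]
    linarith
  · have h1 : (m : ℝ) ≤ -1 := by
      have : m ≤ -1 := by omega
      exact_mod_cast this
    rw [abs_of_nonpos (by linarith)]
    linarith

theorem same (Z Z' : Fin D → ℤ) (l : Fin D) (h : f (par b Z) (b l) = f (par b Z') (b l)) :
    tau b f Z l - tau b f Z' l = ((Z l - Z' l : ℤ) : ℝ) := by
  unfold tau
  rw [h]
  push_cast
  ring

theorem diff (Z Z' : Fin D → ℤ) (l : Fin D) (h : f (par b Z) (b l) ≠ f (par b Z') (b l)) :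
    1 / 2 ≤ |tau b f Z l - tau b f Z' l| := by
  unfold tau
  rcases h1 : f (par b Z) (b l) with _ | _ <;> rcases h2 : f (par b Z') (b l) with _ | _
  · exact absurd (h1.trans h2.symm) h
  · have h3 := half_ge (Z l - Z' l - 1)
    refine h3.trans (le_of_eq ?_)
    congr 1
    push_cast
    simp
    ring
  · have h3 := half_ge (Z l - Z' l)
    refine h3.trans (le_of_eq ?_)
    congr 1
    push_cast
    simp
    ring
  · exact absurd (h1.trans h2.symm) h

theorem par_iff (Z Z' : Fin D → ℤ) (i : Fin n) : par b Z i = par b Z' i ↔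
    (∑ l ∈ Finset.univ.filter (fun l => b l = i), (Z l - Z' l)) % 2 = 0 := by
  unfold par
  rw [Finset.sum_sub_distrib]
  generalize (∑ l ∈ Finset.univ.filter (fun l => b l = i), Z l) = x
  generalize (∑ l ∈ Finset.univ.filter (fun l => b l = i), Z' l) = y
  rw [decide_eq_decide]
  omega

end E1aux

open E1aux in
theorem E1 : St_E1 := by
  intro D n b f hf Z Z' hne
  obtain ⟨hf1, hf2⟩ := hf
  by_cases hA : ∃ l, 3 / 2 ≤ |tau b f Z l - tau b f Z' l|
  · exact Or.inl hA
  right
  push Not at hA
  by_cases hpar : par b Z = par b Z'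
  · left
    have hs : ∀ l, tau b f Z l - tau b f Z' l = ((Z l - Z' l : ℤ) : ℝ) := fun l =>
      same Z Z' l (by rw [hpar])
    obtain ⟨k, hk⟩ := Function.ne_iff.mp hne
    have hk0 : Z k - Z' k ≠ 0 := sub_ne_zero.mpr hk
    have hk1 : |Z k - Z' k| < 2 := by
      have h1 := hA k
      rw [hs, ← Int.cast_abs] at h1
      have h2 : ((|Z k - Z' k| : ℤ) : ℝ) < 2 := by linarith
      exact_mod_cast h2
    by_contra hno
    push Not at hno
    have hz : ∀ l, l ≠ k → Z l - Z' l = 0 := by
      intro l hl
      by_contra h0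
      have h1 := hno k l (Ne.symm hl) (by rw [hs]; exact int_ge hk0)
      rw [hs] at h1
      exact absurd (int_ge h0) (not_le.mpr h1)
    have h3 := (par_iff Z Z' (b k)).mp (by rw [hpar])
    have h4 : ∑ l ∈ Finset.univ.filter (fun l => b l = b k), (Z l - Z' l) = Z k - Z' k := by
      refine Finset.sum_eq_single k (fun l _ hl => hz l hl) (fun h => absurd ?_ h)
      exact Finset.mem_filter.mpr ⟨Finset.mem_univ _, rfl⟩
    rw [h4] at h3
    rw [abs_lt] at hk1
    omega
  · obtain ⟨i, hi1, hi2⟩ := hf1 _ _ hpar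
    have h1 : (∑ l ∈ Finset.univ.filter (fun l => b l = i), (Z l - Z' l)) % 2 ≠ 0 :=
      fun h => hi1 ((par_iff Z Z' i).mpr h)
    have h2 : ∃ k, b k = i ∧ Z k - Z' k ≠ 0 := by
      by_contra hno
      push Not at hno
      apply h1
      rw [Finset.sum_eq_zero]
      · rfl
      · intro l hl
        exact hno l (Finset.mem_filter.mp hl).2
    obtain ⟨k, rfl, hk0⟩ := h2
    have hk1 : 1 ≤ |tau b f Z k - tau b f Z' k| := by
      rw [same Z Z' k hi2]
      exact int_ge hk0
    by_cases hB : ∃ l, l ≠ k ∧ 1 ≤ |tau b f Z l - tau b f Z' l|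
    · obtain ⟨l, hl, hl1⟩ := hB
      exact Or.inl ⟨k, l, Ne.symm hl, hk1, hl1⟩
    right
    push Not at hB
    by_cases hC : ∃ j, f (par b Z) j ≠ f (par b Z') j
    · obtain ⟨j, hj⟩ := hC
      refine ⟨k, j, ?_, hk1, ?_⟩
      · rintro rfl
        exact hj hi2
      · rintro l rfl
        exact diff Z Z' l hj
    · push Not at hC
      exfalso
      have hz : ∀ l, l ≠ k → Z l - Z' l = 0 := by
        intro l hl
        by_contra h0
        have h3 := hB l hl
        rw [same Z Z' l (hC _)] at h3
        exact absurd (int_ge h0) (not_le.mpr h3)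
      have h4 : par b Z' = Function.update (par b Z) (b k) (!par b Z (b k)) := by
        funext j
        by_cases hj : j = b k
        · subst hj
          rw [Function.update_self]
          rcases h5 : par b Z (b k) with _ | _ <;> rcases h6 : par b Z' (b k) with _ | _
          · exact absurd (h5.trans h6.symm) hi1
          · rfl
          · rfl
          · exact absurd (h5.trans h6.symm) hi1
        · rw [Function.update_of_ne hj]
          symm
          rw [par_iff, Finset.sum_eq_zero]
          · rfl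
          · intro l hl
            apply hz
            rintro rfl
            exact hj (Finset.mem_filter.mp hl).2.symm
      apply hf2 (par b Z) (b k)
      rw [← h4]
      exact (funext hC).symm

end H947TP
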