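import Pool.Agent.H947R2.TP.Stubs

/-!
# Upper bound of the density through a set with disjoint translates
-/

open MeasureTheory Filter Topology Set
open scoped ENNReal

namespace H947TP

namespace V2aux

variable {d : ℕ}

/-- the Euclidean norm -/
noncomputable def nm (x : Fin d → ℝ) : ℝ := ‖(WithLp.toLp 2 x : EuclideanSpace ℝ (Fin d))‖

theorem nm_sq (x : Fin d → ℝ) : nm x ^ 2 = ∑ i, x i ^ 2 := by
  unfold nm
  rw [EuclideanSpace.norm_eq, Real.sq_sqrt (Finset.sum_nonneg fun i _ => sq_nonneg _)]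
  refine Finset.sum_congr rfl fun i _ => ?_
  rw [Real.norm_eq_abs, sq_abs]

theorem nm_nonneg (x : Fin d → ℝ) : 0 ≤ nm x := norm_nonneg _

theorem nm_add (x y : Fin d → ℝ) : nm (x + y) ≤ nm x + nm y := by
  unfold nm
  rw [WithLp.toLp_add]
  exact norm_add_le _ _

theorem nm_neg (x : Fin d → ℝ) : nm (-x) = nm x := by
  unfold nm
  rw [WithLp.toLp_neg]
  exact norm_neg _

theorem mem_eball {R : ℝ} (hR : 0 ≤ R) (x : Fin d → ℝ) : x ∈ eball d R ↔ nm x ≤ R := by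
  unfold eball
  rw [Set.mem_setOf_eq, ← nm_sq, sq_le_sq₀ (nm_nonneg x) hR]

theorem nm_bdd (hd : 1 ≤ d) {S : Set (Fin d → ℝ)} (hS : Bornology.IsBounded S) :
    ∃ c : ℝ, 0 ≤ c ∧ ∀ x ∈ S, nm x ≤ c := by
  obtain ⟨c0, hc0, hc⟩ := hS.exists_pos_norm_le
  refine ⟨d * c0, by positivity, fun x hx => ?_⟩
  have h1 : nm x ^ 2 ≤ (d * c0) ^ 2 := by
    rw [nm_sq]
    calc ∑ i, x i ^ 2 ≤ ∑ _i : Fin d, c0 ^ 2 := by
          refine Finset.sum_le_sum fun i _ => ?_
          have h2 : |x i| ≤ c0 := (norm_le_pi_norm x i).trans (hc x hx)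
          rw [← sq_abs (x i)]
          exact pow_le_pow_left₀ (abs_nonneg _) h2 2
      _ = d * c0 ^ 2 := by simp
      _ ≤ (d * c0) ^ 2 := by
          have hd1 : (1 : ℝ) ≤ d := by exact_mod_cast hd
          nlinarith [sq_nonneg c0, mul_nonneg (by linarith : (0:ℝ) ≤ d - 1)
            (mul_nonneg (by linarith : (0:ℝ) ≤ (d:ℝ)) (sq_nonneg c0))]
  exact (sq_le_sq₀ (nm_nonneg x) (by positivity)).mp h1

theorem vol_tr (x : Fin d → ℝ) (S : Set (Fin d → ℝ)) : volume (tr x S) = volume S := by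
  unfold tr
  rw [Set.image_add_left]
  exact measure_preimage_add volume (-x) S

theorem meas_tr (x : Fin d → ℝ) {S : Set (Fin d → ℝ)} (hS : MeasurableSet S) :
    MeasurableSet (tr x S) := by
  unfold tr
  rw [Set.image_add_left]
  exact (measurable_const_add (-x)) hS

theorem disj {F : Set (Fin d → ℝ)} {Λ : AddSubgroup (Fin d → ℝ)}
    (hF : ∀ v ∈ Λ, v ≠ 0 → Disjoint F (tr v F)) {x y : Fin d → ℝ} (hx : x ∈ Λ) (hy : y ∈ Λ)
    (hxy : x ≠ y) : Disjoint (tr x F) (tr y F) := by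
  rw [Set.disjoint_left]
  rintro _ ⟨z, hz, rfl⟩ ⟨z', hz', h⟩
  have h1 := hF (y - x) (Λ.sub_mem hy hx) (sub_ne_zero.mpr (Ne.symm hxy))
  refine Set.disjoint_left.mp h1 hz ⟨z', hz', ?_⟩
  change y + z' = x + z at h
  change y - x + z' = z
  rw [← add_right_inj x, ← h]
  abel

/-- the translates which meet the ball -/
def XR (K : Set (Fin d → ℝ)) (Λ : AddSubgroup (Fin d → ℝ)) (R : ℝ) : Set (Fin d → ℝ) :=
  {x | x ∈ Λ ∧ (tr x K ∩ eball d R).Nonempty}

theorem finset_bound {K F : Set (Fin d → ℝ)} {Λ : AddSubgroup (Fin d → ℝ)} {c R : ℝ}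
    (hc : 0 ≤ c) (hR : 0 ≤ R) (hFm : MeasurableSet F) (hK : ∀ x ∈ K, nm x ≤ c)
    (hFc : ∀ x ∈ F, nm x ≤ c) (hF : ∀ v ∈ Λ, v ≠ 0 → Disjoint F (tr v F))
    (s : Finset (Fin d → ℝ)) (hs : (s : Set (Fin d → ℝ)) ⊆ XR K Λ R) :
    (s.card : ℝ≥0∞) * volume F ≤ volume (eball d (R + 2 * c)) := by
  have h1 : volume (⋃ x ∈ s, tr x F) = (s.card : ℝ≥0∞) * volume F := by
    rw [measure_biUnion_finset]
    · simp only [vol_tr, Finset.sum_const, nsmul_eq_mul]
    · intro x hx y hy hxy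
      exact disj hF (hs hx).1 (hs hy).1 hxy
    · intro x _
      exact meas_tr x hFm
  rw [← h1]
  apply measure_mono
  intro p hp
  simp only [Set.mem_iUnion] at hp
  obtain ⟨x, hx, z, hz, rfl⟩ := hp
  obtain ⟨_, q, ⟨k, hk, rfl⟩, hq⟩ := hs hx
  rw [mem_eball hR] at hq
  rw [mem_eball (by linarith)]
  change nm (x + k) ≤ R at hq
  change nm (x + z) ≤ R + 2 * c
  have h2 : x + z = (x + k) + (-k) + z := by abel
  rw [h2]
  calc nm ((x + k) + (-k) + z) ≤ nm ((x + k) + (-k)) + nm z := nm_add _ _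
    _ ≤ nm (x + k) + nm (-k) + nm z := by linarith [nm_add (x + k) (-k)]
    _ ≤ R + c + c := by
        rw [nm_neg]
        linarith [hK k hk, hFc z hz]
    _ = R + 2 * c := by ring

theorem bound {K F : Set (Fin d → ℝ)} {Λ : AddSubgroup (Fin d → ℝ)} {c R : ℝ}
    (hc : 0 ≤ c) (hR : 0 ≤ R) (hFm : MeasurableSet F) (hK : ∀ x ∈ K, nm x ≤ c)
    (hFc : ∀ x ∈ F, nm x ≤ c) (hF0 : volume F ≠ 0) (hFt : volume F ≠ ⊤)
    (hF : ∀ v ∈ Λ, v ≠ 0 → Disjoint F (tr v F))
    (hV : volume (eball d (R + 2 * c)) ≠ ⊤) :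
    volume (eball d R ∩ ⋃ x ∈ (Λ : Set (Fin d → ℝ)), tr x K) ≤
      volume (eball d (R + 2 * c)) / volume F * volume K := by
  have hfin : (XR K Λ R).Finite := by
    by_contra hinf
    obtain ⟨N, hN⟩ := ENNReal.exists_nat_gt (ENNReal.div_lt_top hV hF0).ne
    obtain ⟨s, hs1, hs2⟩ := Set.Infinite.exists_subset_card_eq hinf N
    have h1 := finset_bound hc hR hFm hK hFc hF s hs1
    rw [hs2] at h1
    have h2 : (N : ℝ≥0∞) ≤ volume (eball d (R + 2 * c)) / volume F := by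
      rw [ENNReal.le_div_iff_mul_le (Or.inl hF0) (Or.inl hFt)]
      exact h1
    exact absurd h2 (not_le.mpr hN)
  have h1 := finset_bound hc hR hFm hK hFc hF hfin.toFinset (by simp)
  have h2 : volume (eball d R ∩ ⋃ x ∈ (Λ : Set (Fin d → ℝ)), tr x K) ≤
      (hfin.toFinset.card : ℝ≥0∞) * volume K := by
    calc volume (eball d R ∩ ⋃ x ∈ (Λ : Set (Fin d → ℝ)), tr x K)
        ≤ volume (⋃ x ∈ hfin.toFinset, tr x K) := by
          apply measure_mono
          rintro p ⟨hp1, hp2⟩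
          simp only [Set.mem_iUnion] at hp2 ⊢
          obtain ⟨x, hx, hp⟩ := hp2
          exact ⟨x, hfin.mem_toFinset.mpr ⟨hx, p, hp, hp1⟩, hp⟩
      _ ≤ ∑ x ∈ hfin.toFinset, volume (tr x K) := measure_biUnion_finset_le _ _
      _ = (hfin.toFinset.card : ℝ≥0∞) * volume K := by
          simp only [vol_tr, Finset.sum_const, nsmul_eq_mul]
  refine h2.trans ?_
  gcongr
  rw [ENNReal.le_div_iff_mul_le (Or.inl hF0) (Or.inl hFt)]
  exact h1

end V2aux

open V2aux in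
theorem V2 (hV1 : St_V1) : St_V2 := by
  intro d K F Λ hd hKc hFm hFb hF0 hF
  obtain ⟨c1, hc1, hK1⟩ := nm_bdd hd hKc.isBounded
  obtain ⟨c2, hc2, hF2⟩ := nm_bdd hd hFb
  obtain ⟨c, hc⟩ : ∃ c, c = c1 + c2 := ⟨_, rfl⟩
  have hc0 : 0 ≤ c := by rw [hc]; positivity
  have hK : ∀ x ∈ K, nm x ≤ c := fun x hx => by linarith [hK1 x hx]
  have hFc : ∀ x ∈ F, nm x ≤ c := fun x hx => by linarith [hF2 x hx]
  obtain ⟨hv1, hv2⟩ := hV1 d (2 * c) hd (by linarith)
  have hFt : volume F ≠ ⊤ := hFb.measure_lt_top.ne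
  have hKt : volume K ≠ ⊤ := hKc.measure_lt_top.ne
  have hq : volume K / volume F ≠ ⊤ := (ENNReal.div_lt_top hKt hF0).ne
  have hlim : Tendsto (fun R : ℝ => volume K / volume F *
      (volume (eball d (R + 2 * c)) / volume (eball d R))) atTop
      (𝓝 (volume K / volume F * 1)) :=
    ENNReal.Tendsto.const_mul hv2 (Or.inr hq)
  rw [mul_one] at hlim
  unfold density
  rw [← hlim.limsup_eq]
  refine Filter.limsup_le_limsup ?_
  filter_upwards [eventually_gt_atTop 0] with R hR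
  have h1 := bound hc0 hR.le hFm hK hFc hF0 hFt hF (hv1 (R + 2 * c) (by linarith)).2
  calc volume (eball d R ∩ ⋃ x ∈ (Λ : Set (Fin d → ℝ)), tr x K) / volume (eball d R)
      ≤ (volume (eball d (R + 2 * c)) / volume F * volume K) / volume (eball d R) := by gcongr
    _ = volume K / volume F * (volume (eball d (R + 2 * c)) / volume (eball d R)) := by
        simp only [div_eq_mul_inv]
        ring

end H947TP
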